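import Pool.Agent.QSN.StmtsD

/-!
# Squad QSN (MP_dc0713_gt): row SLP, representations of the regular algebras
-/

set_option autoImplicit false

namespace Pool.Agent.QSN.H98

open Matrix Finset Pool.Agent.QSX Pool.Agent.QSN

/-- `A ≃ reg A b` -/
noncomputable def rg {k : ℕ} (A : Type) [Ring A] [Algebra ℝ A] (b : Module.Basis (Fin k) ℝ A) :
    A ≃ₐ[ℝ] reg A b :=
  AlgEquiv.ofInjective (Algebra.leftMulMatrix b) (Algebra.leftMulMatrix_injective b)

/-- row SLP -/
theorem slp : SlpStmt := by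
  intro k k' r p q A A' _ _ _ _ b b' ρ α β hρ
  refine ⟨((rg A' b').toAlgHom.mapMatrix).comp (ρ.comp (rg A b).symm.toAlgHom), ?_⟩
  intro x hx
  have h1 : (rg A b).symm x = 0 := by
    refine hρ _ fun i j => ?_
    have h2 : rg A' b' (ρ ((rg A b).symm x) (α i) (β j)) = 0 := hx i j
    exact (EmbeddingLike.map_eq_zero_iff).1 h2
  exact (EmbeddingLike.map_eq_zero_iff).1 h1

end Pool.Agent.QSN.H98
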